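import Pool.Agent.MP_ca1109_lc.Xu.Test

/-!
# Partitions into subcubes with functions of gates: the class
-/

namespace Pool.Agent.MP_ca1109_lc.Xu

/-- The cube is partitioned into `N ≤ N₀` subcubes of any dimensions (the subcube `j` is given by the
values `a j` of the bits in `L j`), and `f` agrees on each of them with a function in `P`. For
instance, the subcubes are the leaves of a decision tree with `N` leaves. -/
def Part {n : ℕ} (P : ((Fin n → Bool) → Bool) → Prop) (N₀ : ℕ) (f : (Fin n → Bool) → Bool) : Prop :=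
  ∃ (N : ℕ) (L : Fin N → Finset (Fin n)) (a : Fin N → Fin n → Bool)
    (g : Fin N → (Fin n → Bool) → Bool),
    N ≤ N₀ ∧ (∀ x : Fin n → Bool, ∃! j, ∀ i ∈ L j, x i = a j i) ∧ (∀ j, P (g j)) ∧
    ∀ (j : Fin N) (x : Fin n → Bool), (∀ i ∈ L j, x i = a j i) → f x = g j x

/-- On each of at most `n ^ h` subcubes, `f` is an arbitrary Boolean function of `k` gates. -/
def PartTest (q d r B k h n : ℕ) (f : (Fin n → Bool) → Bool) : Prop :=
  Part (GateTest q d r B k n) (n ^ h) f

end Pool.Agent.MP_ca1109_lc.Xu
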