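import Mathlib

/-!
# Boolean functions of modular gates and threshold gates over conjunctions of literals: the class
-/

namespace Pool.Agent.MP_ca1109_lc.Xu

/-- The sum of the weights `c m` of those conjunctions of literals `⋀ i ∈ S m, x i = y m i` which are
true at `x`. -/
def litSum {Γ : Type*} [AddCommMonoid Γ] {N n : ℕ} (S : Fin N → Finset (Fin n))
    (y : Fin N → Fin n → Bool) (c : Fin N → Γ) (x : Fin n → Bool) : Γ :=
  ∑ m, if ∀ i ∈ S m, x i = y m i then c m else 0

/-- A gate over a list of conjunctions of literals, of any length and any widths, in which every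
variable occurs in at most `r` conjunctions. It tests one of the following:
* the sum of the coefficients of the true conjunctions, in a finite abelian group killed by `q`,
  lies in a set of at most `B` elements; here the conjunctions of at most `d` literals with
  coefficients killed by `2 ^ q` do not count for the bound `r`;
* the sum of the integer weights, between `-B` and `B`, of the true conjunctions is at least `θ`;
* the sum of the real weights of the true conjunctions is at least `θ`, where all the conjunctions
  are made of the literals `x i = s i` for one string `s`. -/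
def Gate (q d r B : ℕ) {n : ℕ} (g : (Fin n → Bool) → Bool) : Prop :=
  ∃ (N : ℕ) (S : Fin N → Finset (Fin n)) (y : Fin N → Fin n → Bool),
    (∃ (G : Type) (_ : AddCommGroup G) (_ : Finite G) (c : Fin N → G) (A : Finset G),
      (∀ v : G, q • v = 0) ∧ A.card ≤ B ∧
      (∀ i, {m | i ∈ S m ∧ (d < (S m).card ∨ 2 ^ q • c m ≠ 0)}.ncard ≤ r) ∧
      ∀ x, g x = true ↔ litSum S y c x ∈ A) ∨
    (∃ (w : Fin N → ℤ) (θ : ℤ), (∀ m, |w m| ≤ B) ∧ (∀ i, {m | i ∈ S m}.ncard ≤ r) ∧
      ∀ x, g x = true ↔ θ ≤ litSum S y w x) ∨
    ∃ (w : Fin N → ℝ) (θ : ℝ) (s : Fin n → Bool), (∀ m, y m = s) ∧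
      (∀ i, {m | i ∈ S m}.ncard ≤ r) ∧ ∀ x, g x = true ↔ θ ≤ litSum S y w x

/-- `f` is a Boolean function of `k` gates. -/
def GateTest (q d r B k n : ℕ) (f : (Fin n → Bool) → Bool) : Prop :=
  ∃ (g : Fin k → (Fin n → Bool) → Bool) (F : (Fin k → Bool) → Bool),
    (∀ j, Gate q d r B (g j)) ∧ ∀ x, f x = F fun j => g j x

end Pool.Agent.MP_ca1109_lc.Xu
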