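import Pool.Agent.MP_ca1109_lc.Xu.Test

/-!
# Decision trees with functions of gates at the leaves: the class
-/

namespace Pool.Agent.MP_ca1109_lc.Xu

/-- `f` is computed by a decision tree of depth `D` (every inner node asks for one bit) with
functions in `P` at the leaves. -/
def Tree {n : ℕ} (P : ((Fin n → Bool) → Bool) → Prop) : ℕ → ((Fin n → Bool) → Bool) → Prop
  | 0, f => P f
  | D + 1, f => ∃ (i : Fin n) (g : Bool → (Fin n → Bool) → Bool),
      (∀ b, Tree P D (g b)) ∧ ∀ x, f x = g (x i) x

/-- `f` is computed by a decision tree of depth `e ⌊log₂ n⌋`, at each of whose at most `n ^ e` leaves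
there is an arbitrary Boolean function of `k` gates. -/
def TreeTest (q d r B k e n : ℕ) (f : (Fin n → Bool) → Bool) : Prop :=
  Tree (GateTest q d r B k n) (e * Nat.log 2 n) f

end Pool.Agent.MP_ca1109_lc.Xu
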