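import Pool.Agent.MP_ca1109_lc.Xu.Test

/-!
# Sums, over subcubes, of functions of gates: the class
-/

namespace Pool.Agent.MP_ca1109_lc.Xu

/-- `f`, as a function with the values `0` and `1`, is the sum of `N ≤ N₀` functions, each of which is
a real number `c j`, times the indicator of a subcube (given by the values `a j` of the bits in
`S j`), times a function `g j` in `P`. Here `|c j| ≤ M`, and the sum of the numbers `|c j|` times the
measures `2 ^ (-|S j|)` of the subcubes is at most `M`. -/
def Comb {n : ℕ} (P : ((Fin n → Bool) → Bool) → Prop) (M N₀ : ℕ) (f : (Fin n → Bool) → Bool) :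
    Prop :=
  ∃ (N : ℕ) (S : Fin N → Finset (Fin n)) (a : Fin N → Fin n → Bool) (c : Fin N → ℝ)
    (g : Fin N → (Fin n → Bool) → Bool),
    N ≤ N₀ ∧ (∀ j, P (g j)) ∧ (∀ j, |c j| ≤ M) ∧ (∑ j, |c j| * (1 / 2) ^ (S j).card ≤ M) ∧
    ∀ x, (if f x = true then 1 else 0) =
      ∑ j, if (∀ i ∈ S j, x i = a j i) ∧ g j x = true then c j else 0

/-- Sums over at most `n ^ h` subcubes; on each subcube there is an arbitrary function of `k` gates. -/
def CombTest (q d r B k h M n : ℕ) (f : (Fin n → Bool) → Bool) : Prop :=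
  Comb (GateTest q d r B k n) M (n ^ h) f

end Pool.Agent.MP_ca1109_lc.Xu
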